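import Pool.Agent.helper38.AT.Spec
import Pool.Agent.helper44.MT.FI2

/-!
# Project AT (MP_bf63dc_nt), row `bq:FMG`: from standard position to admissible clusters

A copy of `Pool.Agent.MK.FM` (helper2, helper71) with `k` clusters.
-/

set_option autoImplicit false

namespace Pool.Agent.AT

open Finset Real Pool.Agent.helper39.MT Pool.Agent.helper85.FC Pool.Agent.MK

/-- the fibres of `i ↦ i mod k` -/
theorem FMG_fibre (kc k : ℕ) (hk : 0 < k) (hkk : k ≤ kc) (κ : Fin (4 * kc) → Fin k)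
    (hκ : ∀ i, (κ i : ℕ) = (i : ℕ) % k) (j : Fin k) (s : Finset (Fin (4 * kc))) (hs : ∀ i, i ∈ s ↔ κ i = j) :
    kc ≤ k * s.card := by
  set q : ℕ := 4 * kc / k with hq
  have h1 : k * q ≤ 4 * kc := Nat.mul_div_le _ _
  have h2 : 4 * kc < k * q + k := by
    have := Nat.lt_mul_div_succ (4 * kc) hk
    rw [← hq] at this
    linarith
  have h3 : ∀ x : Fin q, (j : ℕ) + k * x < 4 * kc := by
    intro x
    have h4 : k * (x : ℕ) + k ≤ k * q := by
      have : (x : ℕ) + 1 ≤ q := x.2
      calc k * (x : ℕ) + k = k * ((x : ℕ) + 1) := by ring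
        _ ≤ k * q := Nat.mul_le_mul_left _ this
    have := j.2
    omega
  have h5 : q ≤ s.card := by
    have h6 : (Finset.univ.image (fun x : Fin q => (⟨(j : ℕ) + k * x, h3 x⟩ : Fin (4 * kc)))).card = q := by
      rw [Finset.card_image_of_injective, Finset.card_univ, Fintype.card_fin]
      intro x y hxy
      have h7 : (j : ℕ) + k * x = j + k * y := by simpa using congrArg Fin.val hxy
      have h8 : k * (x : ℕ) = k * y := by omega
      exact Fin.ext (Nat.eq_of_mul_eq_mul_left hk h8)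
    calc q = _ := h6.symm
      _ ≤ s.card := by
        apply Finset.card_le_card
        intro i hi
        obtain ⟨x, _, rfl⟩ := Finset.mem_image.1 hi
        rw [hs]
        apply Fin.ext
        rw [hκ]
        show ((j : ℕ) + k * x) % k = j
        rw [Nat.add_mul_mod_self_left]
        exact Nat.mod_eq_of_lt j.2
  have h6 : k * q ≤ k * s.card := Nat.mul_le_mul_left _ h5
  omega

theorem FMG (h1ST : STG_stmt) : FMG_stmt := by
  classical
  intro k hk
  obtain ⟨kc, D₀, hkc, hkkc, hmain⟩ := h1ST k hk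
  have hk0 : 0 < k := hk
  -- the clusters
  set κ : Fin (4 * kc) → Fin k := fun i => ⟨(i : ℕ) % k, Nat.mod_lt _ hk0⟩ with hκ
  set ψ : Fin (4 * kc) → Fin k × Fin (4 * kc) := fun i =>
    (κ i, ⟨(i : ℕ) / k, lt_of_le_of_lt (Nat.div_le_self _ _) i.2⟩) with hψ
  have hψinj : ∀ i i', i ≠ i' → ψ i ≠ ψ i' := by
    intro i i' hne h
    apply hne
    have h1 : (i : ℕ) % k = (i' : ℕ) % k := by
      have := congrArg (fun z => ((z.1 : Fin k) : ℕ)) h
      simpa [hψ, hκ] using this
    have h2 : (i : ℕ) / k = (i' : ℕ) / k := by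
      have := congrArg (fun z => ((z.2 : Fin (4 * kc)) : ℕ)) h
      simpa [hψ] using this
    apply Fin.ext
    rw [← Nat.mod_add_div (i : ℕ) k, ← Nat.mod_add_div (i' : ℕ) k, h1, h2]
  refine ⟨4 * kc, by omega, fun A₀ B₀ hA₀ hdet₀ hadm₀ N => ?_⟩
  set A : Fin (4 * kc) → ℕ := fun i => A₀ (ψ i) with hAdef
  set B : Fin (4 * kc) → ℤ := fun i => B₀ (ψ i) with hBdef
  have hA : ∀ i, 0 < A i := fun i => hA₀ _
  have hdet : ∀ i j, i ≠ j → (A i : ℤ) * B j ≠ A j * B i := fun i j hij => hdet₀ _ _ (hψinj i j hij)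
  have hadm : ∀ p : ℕ, p.Prime → ∃ n : ℤ, ∀ i, ¬ (p : ℤ) ∣ A i * n + B i := by
    intro p hp
    obtain ⟨n, hn⟩ := hadm₀ p hp
    exact ⟨n, fun i => hn _⟩
  -- the modulus
  set M : ℕ := D₀ + ∑ i, A i + ∑ i, ∑ j, ((A i : ℤ) * B j - A j * B i).natAbs with hM
  have hMA : ∀ i, A i ≤ M := by
    intro i
    have := Finset.single_le_sum (f := A) (fun j _ => Nat.zero_le _) (Finset.mem_univ i)
    omega
  have hMdet : ∀ i j, ((A i : ℤ) * B j - A j * B i).natAbs ≤ M := by
    intro i j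
    have h1 := Finset.single_le_sum
      (f := fun j => ((A i : ℤ) * B j - A j * B i).natAbs) (fun j _ => Nat.zero_le _)
      (Finset.mem_univ j)
    have h2 := Finset.single_le_sum
      (f := fun i => ∑ j, ((A i : ℤ) * B j - A j * B i).natAbs) (fun j _ => Nat.zero_le _)
      (Finset.mem_univ i)
    have h3 := h1.trans h2
    omega
  set P : Finset ℕ := (Finset.range (M + 1)).filter Nat.Prime with hP
  have hPmem : ∀ p, p ∈ P ↔ p ≤ M ∧ p.Prime := by
    intro p
    simp only [hP, Finset.mem_filter, Finset.mem_range]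
    constructor
    · rintro ⟨h1, h2⟩; exact ⟨by omega, h2⟩
    · rintro ⟨h1, h2⟩; exact ⟨by omega, h2⟩
  set W : ℕ := ∏ p ∈ P, p with hW
  have hWpos : 0 < W := Finset.prod_pos fun p hp => ((hPmem p).mp hp).2.pos
  have hdvdW : ∀ p : ℕ, p.Prime → (p ∣ W ↔ p ≤ M) := by
    intro p hp
    constructor
    · intro h
      obtain ⟨q, hq, hpq⟩ := (Prime.dvd_finsetProd_iff hp.prime _).mp h
      have h1 := (Nat.prime_dvd_prime_iff_eq hp ((hPmem q).mp hq).2).mp hpq
      rw [h1]
      exact ((hPmem q).mp hq).1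
    · intro h
      exact Finset.dvd_prod_of_mem _ ((hPmem p).mpr ⟨h, hp⟩)
  -- the residue class
  have hchoose : ∀ p : ℕ, ∃ n : ℤ, p.Prime → ∀ i, ¬ (p : ℤ) ∣ A i * n + B i := by
    intro p
    by_cases hp : p.Prime
    · obtain ⟨n, hn⟩ := hadm p hp
      exact ⟨n, fun _ => hn⟩
    · exact ⟨0, fun h => absurd h hp⟩
  choose nn hnn using hchoose
  obtain ⟨v₁, hv₁⟩ := co1_crt_int P (fun p hp => ((hPmem p).mp hp).2) 1 nn
  -- make it large
  set v : ℕ := v₁ + W * (∑ i, (B i).natAbs + 1) with hv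
  have hvpos : ∀ i, 0 < (A i : ℤ) * v + B i := by
    intro i
    have h1 : (B i).natAbs ≤ ∑ i, (B i).natAbs :=
      Finset.single_le_sum (f := fun i => (B i).natAbs) (fun j _ => Nat.zero_le _)
        (Finset.mem_univ i)
    have h2 : (B i).natAbs + 1 ≤ v := by
      have h3 : ∑ i, (B i).natAbs + 1 ≤ W * (∑ i, (B i).natAbs + 1) :=
        Nat.le_mul_of_pos_left _ hWpos
      omega
    have h3 : v ≤ A i * v := Nat.le_mul_of_pos_left _ (hA i)
    have h4 : (B i).natAbs + 1 ≤ A i * v := h2.trans h3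
    have h5 : (((B i).natAbs : ℕ) : ℤ) + 1 ≤ (A i : ℤ) * v := by exact_mod_cast h4
    have h6 : -(((B i).natAbs : ℕ) : ℤ) ≤ B i := by
      rw [Int.natCast_natAbs]
      exact neg_abs_le _
    linarith
  have hvcop : ∀ p ∈ P, ∀ i, ¬ (p : ℤ) ∣ A i * v + B i := by
    intro p hp i hdiv
    have hpp := ((hPmem p).mp hp)
    refine hnn p hpp.2 i ?_
    have h1 := hv₁ p hp
    rw [pow_one] at h1
    have h2 : (p : ℤ) ∣ (W : ℤ) := by exact_mod_cast (hdvdW p hpp.2).mpr hpp.1
    have h3 : (A i : ℤ) * nn p + B i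
        = (A i * v + B i) - A i * (((v₁ : ℤ) - nn p) + W * (∑ i, (B i).natAbs + 1)) := by
      rw [hv]
      push_cast
      ring
    rw [h3]
    exact dvd_sub hdiv ((dvd_add h1 (h2.mul_right _)).mul_left _)
  -- the new forms
  have hB' : ∀ i, (((A i : ℤ) * v + B i).toNat : ℤ) = A i * v + B i :=
    fun i => Int.toNat_of_nonneg (hvpos i).le
  have hS : Std (4 * kc) D₀ (fun i => A i * W) (fun i => ((A i : ℤ) * v + B i).toNat) W := by
    refine ⟨fun i => Nat.mul_pos (hA i) hWpos, fun i => ?_, hWpos, ?_, ?_, ?_, ?_⟩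
    · have h1 := hvpos i
      have h2 := hB' i
      omega
    · intro p hp hpD
      exact (hdvdW p hp).mpr (by omega)
    · intro i p hp
      constructor
      · intro h
        rcases (Nat.Prime.dvd_mul hp).mp h with h1 | h1
        · exact (hdvdW p hp).mpr ((Nat.le_of_dvd (hA i) h1).trans (hMA i))
        · exact h1
      · intro h
        exact h.mul_left _
    · intro i
      refine Nat.Coprime.symm (Nat.Coprime.prod_left fun p hp => ?_)
      have hpp := ((hPmem p).mp hp).2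
      rw [hpp.coprime_iff_not_dvd]
      intro h
      refine hvcop p hp i ?_
      rw [← hB' i]
      exact_mod_cast h
    · intro i j hij p hp hd
      have h1 : (((A i * W : ℕ) : ℤ)) * (((A j : ℤ) * v + B j).toNat : ℤ)
          - (((A j * W : ℕ) : ℤ)) * (((A i : ℤ) * v + B i).toNat : ℤ)
          = W * ((A i : ℤ) * B j - A j * B i) := by
        rw [hB' i, hB' j]
        push_cast
        ring
      rw [h1] at hd
      have hpZ : Prime (p : ℤ) := Nat.prime_iff_prime_int.mp hp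
      rcases hpZ.dvd_or_dvd hd with h2 | h2
      · exact_mod_cast h2
      · have h3 : (A i : ℤ) * B j - A j * B i ≠ 0 := sub_ne_zero.mpr (hdet i j hij)
        have h4 : p ∣ ((A i : ℤ) * B j - A j * B i).natAbs := Int.natCast_dvd.mp h2
        have h5 := Nat.le_of_dvd (Int.natAbs_pos.mpr h3) h4
        exact (hdvdW p hp).mpr (h5.trans (hMdet i j))
  obtain ⟨n, hn, hcnt⟩ := hmain κ (fun j => FMG_fibre kc k hk0 hkkc κ (fun i => rfl) j _ (fun i => by simp))
    _ _ W hS N
  have hform : ∀ i, ((A i : ℤ) * ((W * n + v : ℕ) : ℤ) + B i).toNat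
      = A i * W * n + ((A i : ℤ) * v + B i).toNat := by
    intro i
    have h2 : (A i : ℤ) * ((W * n + v : ℕ) : ℤ) + B i
        = ((A i * W * n + ((A i : ℤ) * v + B i).toNat : ℕ) : ℤ) := by
      push_cast
      rw [hB' i]
      ring
    rw [h2, Int.toNat_natCast]
  refine ⟨W * n + v, ?_, ?_⟩
  · have : n ≤ W * n := Nat.le_mul_of_pos_left _ hWpos
    omega
  · refine lt_of_lt_of_le hcnt ?_
    have h9 : ∀ (s t : Finset (Fin k)), (∀ j ∈ s, j ∈ t) → (s.card : ℝ) ≤ t.card := by
      intro s t hst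
      exact_mod_cast Finset.card_le_card hst
    apply h9
    intro j hj
    rw [Finset.mem_filter] at hj ⊢
    obtain ⟨_, i, hij, hpi⟩ := hj
    refine ⟨Finset.mem_univ _, (ψ i).2, ?_⟩
    have h10 : (j, (ψ i).2) = ψ i := by
      rw [← hij]
    have h11 := hform i
    rw [h10]
    have h12 : ((A₀ (ψ i) : ℤ) * ((W * n + v : ℕ) : ℤ) + B₀ (ψ i)).toNat
        = A i * W * n + ((A i : ℤ) * v + B i).toNat := h11
    rw [h12]
    exact hpi

end Pool.Agent.AT
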